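import Pool.Agent.W719.AX.Ker
import Pool.Agent.W571.FE.EM

/-!
AX-EMR: expansion of the products `R_d`.
-/

set_option autoImplicit false

namespace Pool.Agent.W290.AX

open Finset Filter Topology Metric
open Pool.Agent.W711.HT Pool.Agent.W719.AX
open scoped Real

/-- the factor -/
noncomputable def GG (ψ w : ℂ) : ℂ := 2 * Complex.cos ψ + 2 * Complex.cos (2 * π * w)

theorem continuous_GG : Continuous (fun p : ℂ × ℂ => GG p.1 p.2) := by
  unfold GG
  fun_prop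

theorem cos_bound (x : ℝ) (h0 : 0 ≤ x) (h1 : x ≤ 5 / 16) : -(1 / 2) < Real.cos (2 * π * x) := by
  have hpi := Real.pi_pos
  have h2 : Real.cos (2 * π / 3) = -(1 / 2) := by
    rw [show 2 * π / 3 = π - π / 3 by ring, Real.cos_pi_sub, Real.cos_pi_div_three]
  rw [← h2]
  apply Real.cos_lt_cos_of_nonneg_of_le_pi
  · positivity
  · linarith
  · nlinarith

/-- the good region -/
def OO : Set (ℂ × ℂ) := {p | 1 < (GG p.1 p.2).re ∧ ‖GG p.1 p.2‖ < 5}

theorem isOpen_OO : IsOpen OO := by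
  have h1 : IsOpen {p : ℂ × ℂ | 1 < (GG p.1 p.2).re} :=
    isOpen_lt continuous_const (Complex.continuous_re.comp continuous_GG)
  have h2 : IsOpen {p : ℂ × ℂ | ‖GG p.1 p.2‖ < 5} :=
    isOpen_lt continuous_GG.norm continuous_const
  exact h1.inter h2

/-- the compact segment -/
def KS : Set (ℂ × ℂ) := (fun x : ℝ => ((0 : ℂ), (x : ℂ))) '' Set.Icc (0 : ℝ) (5 / 16)

theorem isCompact_KS : IsCompact KS := by
  unfold KS
  apply isCompact_Icc.image
  exact continuous_const.prodMk Complex.continuous_ofReal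

theorem KS_sub : KS ⊆ OO := by
  rintro p ⟨x, hx, rfl⟩
  have e1 : GG 0 (x : ℂ) = ((2 + 2 * Real.cos (2 * π * x) : ℝ) : ℂ) := by
    unfold GG
    rw [Complex.cos_zero]
    push_cast
    ring
  have e2 := cos_bound x hx.1 hx.2
  have e3 := Real.cos_le_one (2 * π * x)
  have e4 : 1 < (GG 0 (x : ℂ)).re := by
    rw [e1, Complex.ofReal_re]
    linarith
  have e5 : ‖GG 0 (x : ℂ)‖ < 5 := by
    rw [e1, Complex.norm_real, Real.norm_eq_abs, abs_of_pos (by linarith)]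
    linarith
  exact ⟨e4, e5⟩

theorem mem_KS (x : ℝ) (h0 : 0 ≤ x) (h1 : x ≤ 5 / 16) : ((0 : ℂ), (x : ℂ)) ∈ KS := by
  unfold KS
  exact Set.mem_image_of_mem (fun x : ℝ => ((0 : ℂ), (x : ℂ))) ⟨h0, h1⟩

theorem mem_OO (ψ w : ℂ) : (ψ, w) ∈ OO ↔ 1 < (GG ψ w).re ∧ ‖GG ψ w‖ < 5 := Iff.rfl

theorem region : ∃ δ0 : ℝ, 0 < δ0 ∧ ∀ (ψ w : ℂ) (x : ℝ), 0 ≤ x → x ≤ 5 / 16 → ‖ψ‖ < δ0 →
    ‖w - x‖ < δ0 → 1 < (GG ψ w).re ∧ ‖GG ψ w‖ < 5 := by
  obtain ⟨δ0, hδ0, hth⟩ := isCompact_KS.exists_thickening_subset_open isOpen_OO KS_sub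
  refine ⟨δ0, hδ0, ?_⟩
  intro ψ w x hx0 hx1 hψ hw
  have h1 : (ψ, w) ∈ thickening δ0 KS := by
    rw [mem_thickening_iff]
    refine ⟨((0 : ℂ), (x : ℂ)), mem_KS x hx0 hx1, ?_⟩
    rw [Prod.dist_eq, max_lt_iff, dist_eq_norm, dist_eq_norm, sub_zero]
    exact ⟨hψ, hw⟩
  exact (mem_OO ψ w).1 (hth h1)

/-- the logarithm -/
noncomputable def FF (ψ w : ℂ) : ℂ := Complex.log (GG ψ w)

theorem log_bound (z : ℂ) (h1 : 1 < z.re) (h2 : ‖z‖ < 5) : ‖Complex.log z‖ ≤ Real.log 5 + π := by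
  have h3 : 1 < ‖z‖ := h1.trans_le (Complex.re_le_norm z)
  have h4 : 0 ≤ Real.log ‖z‖ := Real.log_nonneg h3.le
  have h5 : Real.log ‖z‖ ≤ Real.log 5 := Real.log_le_log (by linarith) h2.le
  have h6 := Complex.abs_arg_le_pi z
  unfold Complex.log
  refine (norm_add_le _ _).trans ?_
  rw [norm_mul, Complex.norm_I, mul_one, Complex.norm_real, Complex.norm_real, Real.norm_eq_abs,
    Real.norm_eq_abs, abs_of_nonneg h4]
  linarith

theorem differentiable_GG (ψ : ℂ) : Differentiable ℂ (GG ψ) := by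
  unfold GG
  fun_prop

theorem diff_iter {F : ℂ → ℂ} {s : Set ℂ} (hs : IsOpen s) (hF : DifferentiableOn ℂ F s) (k : ℕ) :
    DifferentiableOn ℂ (iteratedDeriv k F) s := by
  induction k with
  | zero => rwa [iteratedDeriv_zero]
  | succ k ih =>
    rw [iteratedDeriv_succ]
    exact ih.deriv hs

theorem emr : S_EMR := by
  obtain ⟨b, hb⟩ := Pool.Agent.W571.FE.em (1 / 2) (by norm_num) (by norm_num)
  obtain ⟨δ0, hδ0, hG⟩ := region
  set B := Real.log 5 + π with hB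
  have hB0 : 0 ≤ B := by
    have := Real.log_nonneg (show (1 : ℝ) ≤ 5 by norm_num)
    have := Real.pi_pos
    rw [hB]; linarith
  have hreg : ∀ ψ : ℂ, ‖ψ‖ < δ0 → ∀ x : ℝ, 0 ≤ x → x ≤ 5 / 16 → ∀ w : ℂ, ‖w - x‖ < δ0 →
      DifferentiableAt ℂ (FF ψ) w ∧ ‖FF ψ w‖ ≤ B := by
    intro ψ hψ x hx0 hx1 w hw
    obtain ⟨g1, g2⟩ := hG ψ w x hx0 hx1 hψ hw
    refine ⟨?_, log_bound _ g1 g2⟩
    apply DifferentiableAt.clog (differentiable_GG ψ w)
    rw [Complex.mem_slitPlane_iff]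
    left; linarith
  have hball : ∀ ψ : ℂ, ‖ψ‖ < δ0 → ∀ x : ℝ, 0 ≤ x → x ≤ 5 / 16 →
      DifferentiableOn ℂ (FF ψ) (ball (x : ℂ) δ0) := by
    intro ψ hψ x hx0 hx1 w hw
    rw [mem_ball, dist_eq_norm] at hw
    exact (hreg ψ hψ x hx0 hx1 w hw).1.differentiableWithinAt
  have hcau : ∀ ψ : ℂ, ‖ψ‖ < δ0 → ∀ x : ℝ, 0 ≤ x → x ≤ 5 / 16 → ∀ w : ℂ, ‖w - x‖ < δ0 / 2 →
      ∀ k : ℕ, ‖iteratedDeriv k (FF ψ) w‖ ≤ k.factorial * B / (δ0 / 4) ^ k := by
    intro ψ hψ x hx0 hx1 w hw k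
    have hsub : closedBall w (δ0 / 4) ⊆ ball (x : ℂ) δ0 := by
      intro y hy
      rw [mem_closedBall, dist_eq_norm] at hy
      rw [mem_ball, dist_eq_norm]
      have e1 : y - x = (y - w) + (w - x) := by ring
      rw [e1]
      have := norm_add_le (y - w) (w - x)
      linarith
    apply Complex.norm_iteratedDeriv_le_of_forall_mem_sphere_norm_le k (by positivity)
    · exact (hball ψ hψ x hx0 hx1).diffContOnCl_ball hsub
    · intro y hy
      have h1 := hsub (sphere_subset_closedBall hy)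
      rw [mem_ball, dist_eq_norm] at h1
      exact (hreg ψ hψ x hx0 hx1 y h1).2
  set ρ := min (1 / 16) (δ0 / 2) with hρ
  have hρ0 : 0 < ρ := lt_min (by norm_num) (by positivity)
  have hρ1 : ρ ≤ 1 / 16 := min_le_left _ _
  have hρ2 : ρ ≤ δ0 / 2 := min_le_right _ _
  have h14 : ((1 / 4 : ℝ) : ℂ) = 1 / 4 := by push_cast; ring
  refine ⟨ρ, hρ0, hρ1, fun k δ ψ => (b k : ℂ) *
    (iteratedDeriv k (FF ψ) δ - iteratedDeriv k (FF ψ) 0), ?_, ?_, ?_⟩
  · intro k ψ hψ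
    rw [mem_ball, dist_zero_right] at hψ
    have h1 := hball ψ (by linarith) (1 / 4) (by norm_num) (by norm_num)
    rw [h14] at h1
    have h2 := (diff_iter isOpen_ball h1 k).mono (ball_subset_ball (x := (1 / 4 : ℂ))
      (show ρ ≤ δ0 by linarith))
    exact (h2.sub (differentiableOn_const _)).const_mul _
  · intro k
    refine ⟨|b k| * (k.factorial * B / (δ0 / 4) ^ k + k.factorial * B / (δ0 / 4) ^ k), ?_⟩
    intro δ hδ ψ hψ
    rw [mem_ball, dist_zero_right] at hψ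
    rw [mem_ball, dist_eq_norm] at hδ
    have e1 := hcau ψ (by linarith) (1 / 4) (by norm_num) (by norm_num) δ
      (by rw [h14]; linarith) k
    have e2 := hcau ψ (by linarith) 0 (by norm_num) (by norm_num) 0
      (by rw [Complex.ofReal_zero, sub_zero, norm_zero]; positivity) k
    rw [norm_mul, Complex.norm_real, Real.norm_eq_abs]
    apply mul_le_mul_of_nonneg_left _ (abs_nonneg _)
    exact (norm_sub_le _ _).trans (add_le_add e1 e2)
  · intro K
    obtain ⟨C, hC0, hC⟩ := hb K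
    refine ⟨C * (B * (1 / δ0) ^ (K + 1)), ?_⟩
    filter_upwards [eventually_ge_atTop (max 1 ⌈4 / δ0⌉₊)] with N hN d hd ψ hψ
    rw [mem_ball, dist_zero_right] at hψ
    have hN1 : 1 ≤ N := (le_max_left _ _).trans hN
    have hNr : (0 : ℝ) < N := by exact_mod_cast hN1
    have hNc : (N : ℂ) ≠ 0 := by
      have : N ≠ 0 := by omega
      exact_mod_cast this
    have hN4 : 4 / δ0 ≤ N := by
      have h1 : ⌈4 / δ0⌉₊ ≤ N := (le_max_right _ _).trans hN
      exact (Nat.le_ceil _).trans (by exact_mod_cast h1)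
    have hε : 4 * (1 / (N : ℝ)) ≤ δ0 := by
      rw [mul_one_div, div_le_iff₀ hNr]
      rw [div_le_iff₀ hδ0] at hN4
      linarith
    rw [abs_lt] at hd
    have hdN : (d : ℝ) * (1 / N) = (d : ℝ) / N := by ring
    have hd1 : (d : ℝ) / N ≤ 5 / 16 := by linarith
    have hem := hC (FF ψ) 0 d (1 / (N : ℝ)) δ0 B (by positivity) hε (by
      intro x hx0 hx1 w hw
      rw [zero_add] at hw
      exact hreg ψ (by linarith) x hx0 (by rw [hdN] at hx1; linarith) w hw)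
    -- the sum
    have hsum : ∀ j ∈ range d, 2 * Complex.cos ψ + 2 * (Real.cos (phi N j) : ℂ) =
        Complex.exp (FF ψ (0 + ((1 / (N : ℝ) : ℝ) : ℂ) * ((j : ℂ) + ((1 / 2 : ℝ) : ℂ)))) := by
      intro j hj
      rw [mem_range] at hj
      have hjd : (j : ℝ) + 1 / 2 ≤ d := by
        have : (j : ℝ) + 1 ≤ d := by exact_mod_cast hj
        linarith
      have hx : (0 : ℝ) ≤ ((j : ℝ) + 1 / 2) / N := by positivity
      have hx1 : ((j : ℝ) + 1 / 2) / N ≤ 5 / 16 :=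
        (div_le_div_of_nonneg_right hjd hNr.le).trans hd1
      have earg : (0 : ℂ) + ((1 / (N : ℝ) : ℝ) : ℂ) * ((j : ℂ) + ((1 / 2 : ℝ) : ℂ)) =
          ((((j : ℝ) + 1 / 2) / N : ℝ) : ℂ) := by
        push_cast
        ring
      rw [earg]
      have hg := hG ψ ((((j : ℝ) + 1 / 2) / N : ℝ) : ℂ) (((j : ℝ) + 1 / 2) / N) hx hx1
        (by linarith) (by rw [sub_self, norm_zero]; exact hδ0)
      have hg0 : GG ψ ((((j : ℝ) + 1 / 2) / N : ℝ) : ℂ) ≠ 0 := by
        intro h0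
        rw [h0, Complex.zero_re] at hg
        linarith [hg.1]
      unfold FF
      rw [Complex.exp_log hg0]
      unfold GG phi
      rw [Complex.ofReal_cos]
      congr 3
      push_cast
      ring
    have hprod : Rp N d ψ = Complex.exp (∑ j ∈ range d,
        FF ψ (0 + ((1 / (N : ℝ) : ℝ) : ℂ) * ((j : ℂ) + ((1 / 2 : ℝ) : ℂ)))) := by
      unfold Rp
      rw [Complex.exp_sum]
      exact prod_congr rfl hsum
    -- the integral
    have hint : (((1 / (N : ℝ) : ℝ) : ℂ))⁻¹ * (∫ x in (0:ℝ)..(d * (1 / (N : ℝ))), FF ψ (0 + x)) =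
        N * rrF ((d : ℂ) / N) ψ := by
      have e1 := intervalIntegral.smul_integral_comp_mul_left (a := 0) (b := 1)
        (fun x : ℝ => FF ψ (0 + (x : ℂ))) ((d : ℝ) * (1 / N))
      rw [mul_zero, mul_one] at e1
      rw [← e1]
      unfold rrF
      rw [Complex.real_smul]
      have e2 : ∀ t : ℝ, FF ψ (0 + (((d : ℝ) * (1 / N) * t : ℝ) : ℂ)) =
          Complex.log (2 * Complex.cos ψ + 2 * Complex.cos (2 * π * ((d : ℂ) / N) * t)) := by
        intro t
        unfold FF GG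
        congr 4
        push_cast
        ring
      simp only [e2]
      push_cast
      field_simp
    rw [hint] at hem
    refine ⟨(∑ j ∈ range d,
        FF ψ (0 + ((1 / (N : ℝ) : ℝ) : ℂ) * ((j : ℂ) + ((1 / 2 : ℝ) : ℂ)))) -
        N * rrF ((d : ℂ) / N) ψ - ∑ k ∈ range K, (b k : ℂ) * ((1 / (N : ℝ) : ℝ) : ℂ) ^ k *
        (iteratedDeriv k (FF ψ) (0 + d * ((1 / (N : ℝ) : ℝ) : ℂ)) - iteratedDeriv k (FF ψ) 0),
        ?_, ?_⟩
    · refine hem.trans ?_
      have hdle : (d : ℝ) ≤ N := by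
        rw [div_le_iff₀ hNr] at hd1
        linarith
      have e3 : C * ((d : ℝ) * B * (1 / (N : ℝ) / δ0) ^ (K + 1)) ≤
          C * ((N : ℝ) * B * (1 / (N : ℝ) / δ0) ^ (K + 1)) := by
        apply mul_le_mul_of_nonneg_left _ hC0
        apply mul_le_mul_of_nonneg_right _ (by positivity)
        exact mul_le_mul_of_nonneg_right hdle hB0
      refine e3.trans (le_of_eq ?_)
      have e4 : (1 / (N : ℝ) / δ0) ^ (K + 1) = (1 / (N : ℝ)) ^ (K + 1) * (1 / δ0) ^ (K + 1) := by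
        rw [← mul_pow]
        congr 1
        ring
      rw [e4]
      have e5 : (N : ℝ) * (1 / (N : ℝ)) ^ (K + 1) = 1 / (N : ℝ) ^ K := by
        rw [pow_succ, one_div, inv_pow, one_div]
        field_simp
      calc C * ((N : ℝ) * B * ((1 / (N : ℝ)) ^ (K + 1) * (1 / δ0) ^ (K + 1)))
          = C * (B * (1 / δ0) ^ (K + 1)) * ((N : ℝ) * (1 / (N : ℝ)) ^ (K + 1)) := by ring
        _ = _ := by rw [e5]; ring
    · rw [hprod]
      congr 1
      have e6 : ∑ k ∈ range K, (b k : ℂ) * ((1 / (N : ℝ) : ℝ) : ℂ) ^ k *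
          (iteratedDeriv k (FF ψ) (0 + d * ((1 / (N : ℝ) : ℝ) : ℂ)) - iteratedDeriv k (FF ψ) 0) =
          ∑ k ∈ range K, (b k : ℂ) * (iteratedDeriv k (FF ψ) ((d : ℂ) / N) -
            iteratedDeriv k (FF ψ) 0) / (N : ℂ) ^ k := by
        refine sum_congr rfl fun k _ => ?_
        have e7 : (0 : ℂ) + d * ((1 / (N : ℝ) : ℝ) : ℂ) = (d : ℂ) / N := by
          push_cast
          ring
        rw [e7]
        push_cast
        rw [one_div, inv_pow]
        ring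
      rw [e6]
      ring

end Pool.Agent.W290.AX
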